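import Pool.Agent.helper38.OB.Spec

/-! Row DEN of the project OB (MP_d7d65f_nt): the density of the infinite set. -/

set_option autoImplicit false

namespace Pool.Agent.OB

open Finset

theorem DEN (hBAS : BAS_stmt) : DEN_stmt := by
  intro h hh κ l0 A hκ hA
  have hC0 : 2 ≤ C0 h := by
    unfold C0
    nlinarith
  have hbe : 2 ≤ be h := by
    unfold be
    exact hC0.trans (Nat.le_self_pow (by norm_num) _)
  have hBs : 2 ≤ Bs h := by
    unfold Bs
    exact hbe.trans (Nat.le_self_pow (by omega) _)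
  have hbe0 : (0 : ℝ) < be h := by
    have : 0 < be h := by omega
    exact_mod_cast this
  refine ⟨κ / (2 * (be h : ℝ) ^ 2), Bs h ^ (l0 + 1), by positivity, fun n hn => ?_⟩
  have hn0 : n ≠ 0 := by
    have : 0 < Bs h ^ (l0 + 1) := by positivity
    omega
  set l := Nat.log (Bs h) n - 1 with hl
  have h1 : l0 + 1 ≤ Nat.log (Bs h) n := (Nat.le_log_iff_pow_le (by omega) hn0).2 hn
  have hlog : Nat.log (Bs h) n = l + 1 := by omega
  have h2 : Bs h ^ (l + 1) ≤ n := by
    rw [← hlog]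
    exact Nat.pow_log_le_self _ hn0
  have h3 : n < Bs h ^ (l + 2) := by
    have := Nat.lt_pow_succ_log_self (b := Bs h) (by omega) n
    rw [hlog] at this
    exact this
  have h4 := hA l (by omega)
  have h5 : (A ∩ (S h l : Set ℕ)) ⊆ A ∩ Set.Icc 1 n := by
    rintro x ⟨hxA, hxS⟩
    obtain ⟨b1, -, -⟩ := hBAS h hh l
    obtain ⟨-, b3, b4⟩ := b1 x hxS
    have b5 : 0 < Bs h ^ l := by positivity
    refine ⟨hxA, by omega, ?_⟩
    have b6 : 1 * x ≤ 2 * h * x := Nat.mul_le_mul_right x (by omega)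
    omega
  have h6 := Set.ncard_le_ncard h5 ((Set.finite_Icc 1 n).subset Set.inter_subset_right)
  have h7 : (n : ℝ) ^ ((1 : ℝ) / (h : ℝ)) ≤ (be h : ℝ) ^ (l + 2) := by
    have e1 : ((be h : ℝ) ^ (l + 2)) = (((be h : ℝ) ^ (l + 2)) ^ h) ^ ((1 : ℝ) / (h : ℝ)) := by
      rw [one_div, Real.pow_rpow_inv_natCast (by positivity) (by omega)]
    rw [e1]
    refine Real.rpow_le_rpow (by positivity) ?_ (by positivity)
    have e2 : n ≤ (be h ^ (l + 2)) ^ h := by
      have : Bs h ^ (l + 2) = (be h ^ (l + 2)) ^ h := by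
        unfold Bs
        rw [← pow_mul, ← pow_mul, mul_comm]
      omega
    exact_mod_cast e2
  calc κ / (2 * (be h : ℝ) ^ 2) * (n : ℝ) ^ ((1 : ℝ) / (h : ℝ))
      ≤ κ / (2 * (be h : ℝ) ^ 2) * (be h : ℝ) ^ (l + 2) := mul_le_mul_of_nonneg_left h7 (by positivity)
    _ = κ * (be h : ℝ) ^ l / 2 := by
        rw [pow_add]
        field_simp
    _ ≤ ((A ∩ (S h l : Set ℕ)).ncard : ℝ) := h4
    _ ≤ ((A ∩ Set.Icc 1 n).ncard : ℝ) := by exact_mod_cast h6

end Pool.Agent.OB
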