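import Pool.Agent.helper38.OB.Spec

/-! Row EVL of the project OB (MP_d7d65f_nt): the lower bound for the number of nearly equal sums. -/

set_option autoImplicit false

namespace Pool.Agent.OB

open Finset

/-- partial summation with the weights `1 / √i` -/
theorem EVL_abel (D : ℕ → ℝ) (g : ℝ) (N : ℕ) (hg : 0 ≤ g)
    (h : ∀ m, 1 ≤ m → m ≤ N → g * √m ≤ ∑ i ∈ range m, D i) :
    ∀ m, 1 ≤ m → m ≤ N → (∑ i ∈ range m, D i) / √m + g / 2 * ((∑ i ∈ range m, (1 : ℝ) / ((i : ℝ) + 1)) - 1) ≤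
      ∑ i ∈ range m, D i / √((i : ℝ) + 1) := by
  intro m hm
  induction m, hm using Nat.le_induction with
  | base =>
    intro _
    simp
  | succ m hm ih =>
    intro hmN
    have h1 := ih (by omega)
    have h2 := h m hm (by omega)
    rw [Finset.sum_range_succ D, Finset.sum_range_succ (fun i : ℕ => (1 : ℝ) / ((i : ℝ) + 1)),
      Finset.sum_range_succ (fun i : ℕ => D i / √((i : ℝ) + 1))]
    set S := ∑ i ∈ range m, D i with hS
    set H := ∑ i ∈ range m, (1 : ℝ) / ((i : ℝ) + 1) with hH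
    set T := ∑ i ∈ range m, D i / √((i : ℝ) + 1) with hT
    have hm0 : (0 : ℝ) < m := by exact_mod_cast hm
    have hcast : ((m + 1 : ℕ) : ℝ) = (m : ℝ) + 1 := by push_cast; ring
    rw [hcast]
    set a := √(m : ℝ) with ha
    set b := √((m : ℝ) + 1) with hb
    have ha0 : 0 < a := Real.sqrt_pos.2 hm0
    have hb0 : 0 < b := Real.sqrt_pos.2 (by positivity)
    have haa : a * a = m := Real.mul_self_sqrt hm0.le
    have hbb : b * b = (m : ℝ) + 1 := Real.mul_self_sqrt (by positivity)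
    have hab : a ≤ b := Real.sqrt_le_sqrt (by linarith)
    -- S (1/a - 1/b) ≥ g / (2 (m+1))
    have h3 : 1 / (2 * (b * b)) ≤ a * (1 / a - 1 / b) := by
      have e1 : a * (1 / a - 1 / b) = (b - a) / b := by field_simp
      rw [e1, div_le_div_iff₀ (by positivity) hb0]
      have e2 : (b - a) * (b + a) = 1 := by nlinarith
      nlinarith [mul_pos hb0 hb0]
    have h4 : g / (2 * (b * b)) ≤ S * (1 / a - 1 / b) := by
      have e3 : 0 ≤ 1 / a - 1 / b := by
        rw [sub_nonneg]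
        exact one_div_le_one_div_of_le ha0 hab
      calc g / (2 * (b * b)) = g * (1 / (2 * (b * b))) := by ring
        _ ≤ g * (a * (1 / a - 1 / b)) := mul_le_mul_of_nonneg_left h3 hg
        _ = (g * a) * (1 / a - 1 / b) := by ring
        _ ≤ S * (1 / a - 1 / b) := mul_le_mul_of_nonneg_right h2 e3
    have h5 : g / (2 * (b * b)) = g / 2 * (1 / ((m : ℝ) + 1)) := by
      rw [hbb]
      field_simp
    have h6 : (S + D m) / b = S / a + D m / b - S * (1 / a - 1 / b) := by ring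
    rw [h6]
    have h7 : g / 2 * (H + 1 / ((m : ℝ) + 1) - 1) = g / 2 * (H - 1) + g / 2 * (1 / ((m : ℝ) + 1)) := by ring
    rw [h7, ← h5]
    linarith

theorem EVL_sq (D : ℕ → ℝ) (c : ℝ) (N : ℕ) (hN : 1 ≤ N) (hc : 0 < c)
    (h : ∀ m, 1 ≤ m → m ≤ N → c * √(m * N) ≤ ∑ i ∈ range m, D i) :
    c ^ 2 / 4 * N * Real.log N ≤ ∑ i ∈ range N, D i ^ 2 := by
  have hN0 : (0 : ℝ) < N := by exact_mod_cast hN
  set r := √(N : ℝ) with hr
  have hr0 : 0 < r := Real.sqrt_pos.2 hN0
  have hrr : r * r = N := Real.mul_self_sqrt hN0.le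
  have h' : ∀ m, 1 ≤ m → m ≤ N → (c * r) * √m ≤ ∑ i ∈ range m, D i := by
    intro m h1 h2
    have h3 := h m h1 h2
    rw [Real.sqrt_mul (Nat.cast_nonneg m)] at h3
    calc c * r * √m = c * (√m * r) := by ring
      _ ≤ _ := h3
  have h1 := EVL_abel D (c * r) N (by positivity) h' N hN le_rfl
  have h2 := h' N hN le_rfl
  set H := ∑ i ∈ range N, (1 : ℝ) / ((i : ℝ) + 1) with hH
  have h3 : c * r ≤ (∑ i ∈ range N, D i) / √(N : ℝ) := by
    rw [le_div_iff₀ hr0]
    exact h2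
  have h4 : c * r / 2 * H ≤ ∑ i ∈ range N, D i / √((i : ℝ) + 1) := by
    have e : c * r / 2 * (H - 1) = c * r / 2 * H - c * r / 2 := by ring
    rw [e] at h1
    have : 0 < c * r := by positivity
    linarith
  have hlog : Real.log N ≤ H := by
    have h5 := log_add_one_le_harmonic N
    have h6 : ((harmonic N : ℚ) : ℝ) = H := by
      rw [hH]
      unfold harmonic
      push_cast
      refine Finset.sum_congr rfl fun i _ => ?_
      rw [one_div]
    rw [h6] at h5
    exact (Real.log_le_log hN0 (by push_cast; linarith)).trans h5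
  -- the quadratic inequality
  have h5 : ∀ i ∈ range N, 2 * (c / 2 * r / √((i : ℝ) + 1)) * D i - (c / 2 * r / √((i : ℝ) + 1)) ^ 2 ≤ D i ^ 2 := by
    intro i _
    nlinarith [sq_nonneg (D i - c / 2 * r / √((i : ℝ) + 1))]
  refine le_trans ?_ (Finset.sum_le_sum h5)
  rw [Finset.sum_sub_distrib]
  have e1 : ∑ i ∈ range N, 2 * (c / 2 * r / √((i : ℝ) + 1)) * D i =
      c * r * ∑ i ∈ range N, D i / √((i : ℝ) + 1) := by
    rw [Finset.mul_sum]
    refine Finset.sum_congr rfl fun i _ => ?_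
    ring
  have e2 : ∑ i ∈ range N, (c / 2 * r / √((i : ℝ) + 1)) ^ 2 = c ^ 2 / 4 * N * H := by
    rw [hH, Finset.mul_sum]
    refine Finset.sum_congr rfl fun i _ => ?_
    have hs : √((i : ℝ) + 1) ^ 2 = (i : ℝ) + 1 := Real.sq_sqrt (by positivity)
    rw [div_pow, hs, mul_pow, div_pow, ← hrr]
    ring
  rw [e1, e2]
  have h6 : c * r * (c * r / 2 * H) ≤ c * r * ∑ i ∈ range N, D i / √((i : ℝ) + 1) :=
    mul_le_mul_of_nonneg_left h4 (by positivity)
  have h7 : c * r * (c * r / 2 * H) = c ^ 2 / 2 * N * H := by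
    rw [← hrr]
    ring
  have h8 : c ^ 2 / 4 * N * Real.log N ≤ c ^ 2 / 4 * N * H := mul_le_mul_of_nonneg_left hlog (by positivity)
  nlinarith

open Classical in
/-- the tuples with the sum in `(i N, (i + 1) N]` -/
noncomputable def EVL_E (F : Finset ℕ) (k N i : ℕ) : Finset (Fin k → ℕ) :=
  (Fintype.piFinset fun _ : Fin k => F).filter fun x => i * N < ∑ j, x j ∧ ∑ j, x j ≤ (i + 1) * N

theorem EVL_mem (F : Finset ℕ) (k N i : ℕ) (x : Fin k → ℕ) :
    x ∈ EVL_E F k N i ↔ (∀ j, x j ∈ F) ∧ i * N < ∑ j, x j ∧ ∑ j, x j ≤ (i + 1) * N := by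
  classical
  unfold EVL_E
  rw [Finset.mem_filter, Fintype.mem_piFinset]

theorem EVL_pairs (F : Finset ℕ) (k N : ℕ) :
    ∑ i ∈ range N, (((EVL_E F k N i).card : ℕ) : ℝ) ^ 2 ≤ ((Pk (F : Set ℕ) k N).ncard : ℝ) := by
  classical
  have hfin : (Pk (F : Set ℕ) k N).Finite := by
    refine Set.Finite.subset (Finset.finite_toSet ((Fintype.piFinset fun _ : Fin k => F) ×ˢ
      (Fintype.piFinset fun _ : Fin k => F))) ?_
    rintro p ⟨h1, h2, -⟩
    rw [Finset.mem_coe, Finset.mem_product, Fintype.mem_piFinset, Fintype.mem_piFinset]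
    exact ⟨fun i => h1 i, fun i => h2 i⟩
  have h1 : (((range N).biUnion fun i => EVL_E F k N i ×ˢ EVL_E F k N i :
      Finset ((Fin k → ℕ) × (Fin k → ℕ))) : Set ((Fin k → ℕ) × (Fin k → ℕ))) ⊆ Pk (F : Set ℕ) k N := by
    intro p hp
    rw [Finset.mem_coe, Finset.mem_biUnion] at hp
    obtain ⟨i, -, hp⟩ := hp
    rw [Finset.mem_product, EVL_mem, EVL_mem] at hp
    obtain ⟨⟨a1, a2, a3⟩, b1, b2, b3⟩ := hp
    refine ⟨fun j => a1 j, fun j => b1 j, ?_⟩
    have e1 : (∑ j, (p.1 j : ℤ)) = ((∑ j, p.1 j : ℕ) : ℤ) := by push_cast; rfl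
    have e2 : (∑ j, (p.2 j : ℤ)) = ((∑ j, p.2 j : ℕ) : ℤ) := by push_cast; rfl
    rw [e1, e2]
    have e3 : (i + 1) * N = i * N + N := by ring
    rw [e3] at a3 b3
    rw [abs_le]
    constructor <;> omega
  have h2 := Set.ncard_le_ncard h1 hfin
  rw [Set.ncard_coe_finset, Finset.card_biUnion] at h2
  · have h3 : ∑ i ∈ range N, (((EVL_E F k N i).card : ℕ) : ℝ) ^ 2 =
        ((∑ i ∈ range N, (EVL_E F k N i ×ˢ EVL_E F k N i).card : ℕ) : ℝ) := by
      push_cast [Finset.card_product]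
      exact Finset.sum_congr rfl fun i _ => sq _
    rw [h3]
    exact_mod_cast h2
  · intro i _ i' _ hne
    show Disjoint (EVL_E F k N i ×ˢ EVL_E F k N i) (EVL_E F k N i' ×ˢ EVL_E F k N i')
    rw [Finset.disjoint_left]
    intro p hp hp'
    rw [Finset.mem_product, EVL_mem] at hp hp'
    obtain ⟨⟨-, a2, a3⟩, -⟩ := hp
    obtain ⟨⟨-, b2, b3⟩, -⟩ := hp'
    apply hne
    have c1 : i < i' + 1 := by
      by_contra hc
      push Not at hc
      have := Nat.mul_le_mul_right N hc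
      omega
    have c2 : i' < i + 1 := by
      by_contra hc
      push Not at hc
      have := Nat.mul_le_mul_right N hc
      omega
    omega

theorem EVL_sub (F G : Finset ℕ) (k N m q : ℕ) (hk : 1 ≤ k) (hN : 1 ≤ N) (hGF : G ⊆ F)
    (hG : ∀ x ∈ G, 1 ≤ x ∧ x ≤ q) (hq : k * q ≤ m * N) :
    G.card ^ k ≤ ∑ i ∈ range m, (EVL_E F k N i).card := by
  classical
  have h1 : (Fintype.piFinset fun _ : Fin k => G) ⊆ (range m).biUnion fun i => EVL_E F k N i := by
    intro x hx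
    rw [Fintype.mem_piFinset] at hx
    have h2 : ∑ j, x j ≤ k * q := by
      calc ∑ j, x j ≤ ∑ _j : Fin k, q := Finset.sum_le_sum fun j _ => (hG _ (hx j)).2
        _ = k * q := by rw [Finset.sum_const, Finset.card_univ, Fintype.card_fin, smul_eq_mul]
    have h3 : k ≤ ∑ j, x j := by
      calc k = ∑ _j : Fin k, 1 := by rw [Finset.sum_const, Finset.card_univ, Fintype.card_fin, smul_eq_mul, mul_one]
        _ ≤ ∑ j, x j := Finset.sum_le_sum fun j _ => (hG _ (hx j)).1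
    set s := ∑ j, x j with hs
    rw [Finset.mem_biUnion]
    refine ⟨(s - 1) / N, ?_, ?_⟩
    · rw [Finset.mem_range, Nat.div_lt_iff_lt_mul (by omega)]
      omega
    · rw [EVL_mem, ← hs]
      refine ⟨fun j => hGF (hx j), ?_, ?_⟩
      · have := Nat.div_mul_le_self (s - 1) N
        omega
      · have h4 := Nat.lt_mul_div_succ (s - 1) (show 0 < N by omega)
        have h5 : (s - 1) / N * N + N = N * ((s - 1) / N + 1) := by ring
        have h6 : ((s - 1) / N + 1) * N = N * ((s - 1) / N + 1) := by ring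
        omega
  have h2 := (Finset.card_le_card h1).trans Finset.card_biUnion_le
  rwa [Fintype.card_piFinset, Finset.prod_const, Finset.card_univ, Fintype.card_fin] at h2

theorem EVL : EVL_stmt := by
  intro k hk A hA
  obtain ⟨c, n0, hc, hA⟩ := hA
  have hk0 : (0 : ℝ) < k := by exact_mod_cast hk
  set c1 : ℝ := c ^ k / √(2 * k) with hc1
  have hc10 : 0 < c1 := by positivity
  refine ⟨c1 ^ 2 / 4, k * (n0 + 2), by positivity, fun N hN => ?_⟩
  have hN1 : 1 ≤ N := by
    have : 1 * 1 ≤ k * (n0 + 2) := Nat.mul_le_mul hk (by omega)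
    omega
  have hfin : (A ∩ Set.Icc 1 (N ^ 2)).Finite := (Set.finite_Icc 1 (N ^ 2)).subset Set.inter_subset_right
  set F : Finset ℕ := hfin.toFinset with hF
  have hFc : (F : Set ℕ) = A ∩ Set.Icc 1 (N ^ 2) := by rw [hF, Set.Finite.coe_toFinset]
  rw [← hFc]
  refine le_trans ?_ (EVL_pairs F k N)
  refine EVL_sq (fun i => (((EVL_E F k N i).card : ℕ) : ℝ)) c1 N hN1 hc10 ?_
  intro m hm1 hm2
  set q := m * N / k with hq
  have hmN : N ≤ m * N := Nat.le_mul_of_pos_left N (by omega)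
  have hkq : k * q ≤ m * N := Nat.mul_div_le _ _
  have hq0 : n0 + 2 ≤ q := by
    rw [hq, Nat.le_div_iff_mul_le (by omega)]
    calc (n0 + 2) * k = k * (n0 + 2) := Nat.mul_comm _ _
      _ ≤ N := hN
      _ ≤ m * N := hmN
  have hqN : q ≤ N ^ 2 := by
    calc q ≤ m * N := Nat.div_le_self _ _
      _ ≤ N * N := Nat.mul_le_mul_right N hm2
      _ = N ^ 2 := (sq N).symm
  have hfinG : (A ∩ Set.Icc 1 q).Finite := (Set.finite_Icc 1 q).subset Set.inter_subset_right
  set G : Finset ℕ := hfinG.toFinset with hG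
  have hGmem : ∀ x, x ∈ G ↔ x ∈ A ∧ 1 ≤ x ∧ x ≤ q := by
    intro x
    rw [hG, Set.Finite.mem_toFinset]
    exact Iff.rfl
  have h1 := EVL_sub F G k N m q hk hN1 (fun x hx => by
    rw [hGmem] at hx
    rw [hF, Set.Finite.mem_toFinset]
    exact ⟨hx.1, hx.2.1, hx.2.2.trans hqN⟩) (fun x hx => ((hGmem x).1 hx).2) hkq
  have h2 : (G.card : ℝ) ^ k ≤ ∑ i ∈ range m, (((EVL_E F k N i).card : ℕ) : ℝ) := by exact_mod_cast h1
  refine le_trans ?_ h2
  have h3 := hA q (by omega)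
  rw [Set.ncard_eq_toFinset_card _ hfinG] at h3
  have hqr : (0 : ℝ) ≤ (q : ℝ) := Nat.cast_nonneg q
  have h4 : c ^ k * √(q : ℝ) ≤ (G.card : ℝ) ^ k := by
    have h5 := pow_le_pow_left₀ (mul_nonneg hc.le (Real.rpow_nonneg hqr _)) h3 k
    rw [mul_pow] at h5
    have h6 : ((q : ℝ) ^ ((1 : ℝ) / ((2 * k : ℕ) : ℝ))) ^ k = √(q : ℝ) := by
      rw [← Real.rpow_natCast, ← Real.rpow_mul hqr, Real.sqrt_eq_rpow]
      congr 1
      push_cast
      field_simp
    rw [h6] at h5
    exact h5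
  refine le_trans ?_ h4
  have h7 : √((m : ℝ) * N) ≤ √(2 * k) * √(q : ℝ) := by
    rw [← Real.sqrt_mul (by positivity)]
    refine Real.sqrt_le_sqrt ?_
    have h8 : m * N < k * (q + 1) := Nat.lt_mul_div_succ _ (by omega)
    have h9 : m * N ≤ 2 * k * q := by
      have : k * (q + 1) ≤ k * (2 * q) := Nat.mul_le_mul_left k (by omega)
      have e : k * (2 * q) = 2 * k * q := by ring
      omega
    exact_mod_cast h9
  have h8 : 0 < √(2 * (k : ℝ)) := Real.sqrt_pos.2 (by positivity)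
  calc c1 * √((m : ℝ) * N) ≤ c1 * (√(2 * k) * √(q : ℝ)) := mul_le_mul_of_nonneg_left h7 hc10.le
    _ = c ^ k * √(q : ℝ) := by
        rw [hc1]
        field_simp

end Pool.Agent.OB
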