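import Pool.Agent.helper38.OB.Spec

/-! Row FIN of the project OB (MP_d7d65f_nt): the finite sets. -/

set_option autoImplicit false

namespace Pool.Agent.OB

open Finset

theorem FIN_mem {j : ℕ} (c : Fin j → ℤ) (P : ℤ → Prop) (A : Finset ℕ) (x : Fin j → ℕ) :
    x ∈ RQ c P A ↔ x ∈ Inj j A ∧ P (lf c x) := by
  classical
  unfold RQ
  rw [Finset.mem_filter]

theorem FIN_mono {j : ℕ} (c : Fin j → ℤ) (N M : ℕ) (hNM : N ≤ M) (A : Finset ℕ) :
    RQ c (fun t => |t| ≤ (N : ℤ)) A ⊆ RN c 0 M A := by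
  classical
  intro x hx
  have hx' := (FIN_mem c _ A x).1 hx
  refine (FIN_mem c (fun y => |0 + y| ≤ (M : ℤ)) A x).2 ⟨hx'.1, ?_⟩
  have h1 : |lf c x| ≤ (N : ℤ) := hx'.2
  show |0 + lf c x| ≤ (M : ℤ)
  rw [zero_add]
  exact h1.trans (by exact_mod_cast hNM)

theorem FIN_log (b : ℕ) (hb : 2 ≤ b) (t : ℤ) :
    ((Nat.clog b t.natAbs : ℕ) : ℝ) + 1 ≤ 3 / Real.log 2 * Real.log (|(t : ℝ)| + 2) := by
  have hl2 : 0 < Real.log 2 := Real.log_pos (by norm_num)
  have habs : |(t : ℝ)| = ((t.natAbs : ℕ) : ℝ) := by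
    rw [Nat.cast_natAbs, Int.cast_abs]
  rw [habs]
  set n := t.natAbs with hn
  have hn0 : (0 : ℝ) ≤ n := Nat.cast_nonneg n
  have h1 : Real.log 2 ≤ Real.log ((n : ℝ) + 2) := Real.log_le_log (by norm_num) (by linarith)
  have h2 : ((Nat.clog b n : ℕ) : ℝ) * Real.log 2 ≤ Real.log 2 + Real.log ((n : ℝ) + 2) := by
    rcases Nat.eq_zero_or_pos (Nat.clog b n) with h0 | h0
    · rw [h0]
      simp only [Nat.cast_zero, zero_mul]
      linarith
    · have hn1 : 1 < n := by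
        by_contra hc
        have : Nat.clog b n = 0 := Nat.clog_of_right_le_one (by omega) b
        omega
      have h3 := Nat.pow_pred_clog_lt_self (b := b) (by omega) hn1
      obtain ⟨q, hq⟩ : ∃ q, Nat.clog b n = q + 1 := ⟨Nat.clog b n - 1, by omega⟩
      rw [hq] at h3 ⊢
      have h4 : (2 : ℝ) ^ q ≤ n := by
        have h5 : 2 ^ q ≤ b ^ q := Nat.pow_le_pow_left hb q
        have h6 : 2 ^ q ≤ n := h5.trans h3.le
        exact_mod_cast h6
      have h5 : Real.log ((2 : ℝ) ^ q) ≤ Real.log ((n : ℝ) + 2) :=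
        Real.log_le_log (by positivity) (by linarith)
      rw [Real.log_pow] at h5
      push_cast
      linarith
  have h3 : ((Nat.clog b n : ℕ) : ℝ) + 1 ≤ (3 * Real.log ((n : ℝ) + 2)) / Real.log 2 := by
    rw [le_div_iff₀ hl2]
    linarith
  calc ((Nat.clog b n : ℕ) : ℝ) + 1 ≤ (3 * Real.log ((n : ℝ) + 2)) / Real.log 2 := h3
    _ = 3 / Real.log 2 * Real.log ((n : ℝ) + 2) := by ring

theorem FIN (hGOO : GOO_stmt) (hCBA : CBA_stmt) (hCBB : CBB_stmt) (hPAT : PAT_stmt) : FIN_stmt := by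
  classical
  intro h hodd hh η hη
  obtain ⟨C, K, hC, hK, hgoo⟩ := hGOO h hodd hh
  obtain ⟨K', hK'⟩ := hCBA h
  have hC0 : 2 ≤ C0 h := by
    unfold C0
    nlinarith
  have hBs : 2 ≤ Bs h := by
    have hbe : 2 ≤ be h := by
      unfold be
      exact hC0.trans (Nat.le_self_pow (by norm_num) _)
    unfold Bs
    exact hbe.trans (Nat.le_self_pow (by omega) _)
  have hBs0 : (0 : ℝ) < Bs h := by
    have : 0 < Bs h := by omega
    exact_mod_cast this
  set Q : ℝ := (h + 1) * (h : ℝ) ^ h with hQ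
  have hh0 : (0 : ℝ) < h := by
    have : 0 < h := by omega
    exact_mod_cast this
  have hQ0 : 0 < Q := by positivity
  -- the choice of kappa
  set κ : ℝ := min 1 (η / (Q * (1 + C) * Bs h)) with hκ
  have hκ0 : 0 < κ := lt_min one_pos (by positivity)
  have hκ1 : κ ≤ 1 := min_le_left _ _
  have hκη : Q * (κ ^ h * Bs h + C * κ ^ h * Bs h) ≤ η := by
    have h1 : κ ^ h ≤ κ := pow_le_of_le_one hκ0.le hκ1 (by omega)
    have h2 : κ ≤ η / (Q * (1 + C) * Bs h) := min_le_right _ _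
    rw [le_div_iff₀ (by positivity)] at h2
    have h3 : Q * (κ ^ h * Bs h + C * κ ^ h * Bs h) = κ ^ h * (Q * (1 + C) * Bs h) := by ring
    rw [h3]
    exact (mul_le_mul_of_nonneg_right h1 (by positivity)).trans h2
  obtain ⟨J0, l0, hA⟩ := hgoo κ hκ0 hκ1
  refine ⟨κ, Q * (K' + K * (h : ℝ) ^ 2 * K') * (3 / Real.log 2), l0, hκ0, fun L => ?_⟩
  obtain ⟨A, hgood⟩ := hA L
  refine ⟨A, hgood.sub, hgood.ga, fun e he => ⟨fun N hN => ?_, fun t => ?_⟩⟩
  · -- small sums
    set J := Nat.clog (Bs h) N with hJ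
    have hNJ : N ≤ Bs h ^ J := Nat.le_pow_clog (by omega) N
    by_cases hJ0 : J ≤ J0
    · have hNJ0 : N ≤ Bs h ^ J0 := hNJ.trans (Nat.pow_le_pow_right (by omega) hJ0)
      have h1 := hPAT h (by omega) A (fun t => |t| ≤ (N : ℤ)) 0 0 le_rfl le_rfl
        (fun j c hj1 hj2 hc => by
          have h2 := FIN_mono c N _ hNJ0 A
          rw [hgood.gf.1 j c hj1 hj2 hc] at h2
          rw [Finset.subset_empty.1 h2, Finset.card_empty, Nat.cast_zero])
        (fun e' he' => by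
          have h2 := FIN_mono e' N _ hNJ0 A
          rw [hgood.gf.2 e' he'] at h2
          rw [Finset.subset_empty.1 h2, Finset.card_empty, Nat.cast_zero]) e he
      have h3 : (0 : ℝ) ≤ η * N := by positivity
      refine h1.trans ?_
      rw [add_zero, mul_zero]
      exact h3
    · push Not at hJ0
      have hJpos : 1 ≤ J := by omega
      have hN1 : 1 < N := by
        by_contra hc
        have : Nat.clog (Bs h) N = 0 := Nat.clog_of_right_le_one (by omega) _
        omega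
      have h2 : Bs h ^ J ≤ Bs h * N := by
        have h3 := Nat.pow_pred_clog_lt_self (b := Bs h) (by omega) hN1
        obtain ⟨q, hq⟩ : ∃ q, Nat.clog (Bs h) N = q + 1 := ⟨Nat.clog (Bs h) N - 1, by omega⟩
        rw [hq] at h3
        rw [hJ, hq, pow_succ, mul_comm]
        exact Nat.mul_le_mul_left _ h3.le
      have h2' : ((Bs h : ℝ)) ^ J ≤ Bs h * N := by exact_mod_cast h2
      have h1 := hPAT h (by omega) A (fun t => |t| ≤ (N : ℤ)) (κ ^ h * (Bs h : ℝ) ^ J)
        (C * κ ^ h * (Bs h : ℝ) ^ J) (by positivity) (by positivity)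
        (fun j c hj1 hj2 hc => by
          have h3 := Finset.card_le_card (FIN_mono c N _ hNJ A)
          have h4 := hgood.ge j c hj1 hj2 hc J hJ0
          have h5 : ((RQ c (fun t => |t| ≤ (N : ℤ)) A).card : ℝ) ≤ ((RN c 0 (Bs h ^ J) A).card : ℝ) := by
            exact_mod_cast h3
          exact h5.trans h4)
        (fun e' he' => by
          have h3 := Finset.card_le_card (FIN_mono e' N _ hNJ A)
          have h4 := hgood.gd e' he' J hJ0
          have h5 : ((RQ e' (fun t => |t| ≤ (N : ℤ)) A).card : ℝ) ≤ ((RN e' 0 (Bs h ^ J) A).card : ℝ) := by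
            exact_mod_cast h3
          exact h5.trans h4) e he
      refine h1.trans ?_
      calc Q * (κ ^ h * (Bs h : ℝ) ^ J + C * κ ^ h * (Bs h : ℝ) ^ J)
          = Q * (κ ^ h + C * κ ^ h) * (Bs h : ℝ) ^ J := by ring
        _ ≤ Q * (κ ^ h + C * κ ^ h) * (Bs h * N) := mul_le_mul_of_nonneg_left h2' (by positivity)
        _ = (Q * (κ ^ h * Bs h + C * κ ^ h * Bs h)) * N := by ring
        _ ≤ η * N := mul_le_mul_of_nonneg_right hκη (Nat.cast_nonneg N)
  · -- representations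
    have hrep : ∀ (j : ℕ) (c : Fin j → ℤ), j < h → Cf h c → ∀ n : ℤ, (RP c n A).card ≤ K' :=
      hK' A hgood.gb
    obtain ⟨m, hm⟩ : ∃ m, h = m + 1 := ⟨h - 1, by omega⟩
    subst hm
    set s : ℕ := K * (Nat.clog (Bs (m + 1)) t.natAbs + 1) with hs
    have hs1 : 1 ≤ s := Nat.mul_pos (by omega) (by omega)
    have hlog := FIN_log (Bs (m + 1)) hBs t
    have hlog0 : (0 : ℝ) ≤ ((Nat.clog (Bs (m + 1)) t.natAbs : ℕ) : ℝ) := Nat.cast_nonneg _
    have h1 := hPAT (m + 1) (by omega) A (fun y => y = t) (K' : ℝ)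
      ((s : ℝ) * ((m + 1 : ℕ) : ℝ) ^ 2 * K') (Nat.cast_nonneg _) (by positivity)
      (fun j c hj1 hj2 hc => by
        have h2 := hrep j c hj2 hc t
        have h3 : (RQ c (fun y => y = t) A).card ≤ K' := h2
        exact_mod_cast h3)
      (fun e' he' => by
        have h2 := hCBB m A K' s hs1 (fun c hc n => hrep m c (by omega) hc n) e' he' t (hgood.gc e' he' t)
        have h3 : (RQ e' (fun y => y = t) A).card ≤ s * (m + 1) ^ 2 * K' := h2
        exact_mod_cast h3) e he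
    refine h1.trans ?_
    have h4 : (s : ℝ) = K * (((Nat.clog (Bs (m + 1)) t.natAbs : ℕ) : ℝ) + 1) := by
      rw [hs]
      push_cast
      ring
    set g : ℝ := ((Nat.clog (Bs (m + 1)) t.natAbs : ℕ) : ℝ) + 1 with hg
    have hg1 : 1 ≤ g := by linarith
    calc Q * ((K' : ℝ) + (s : ℝ) * ((m + 1 : ℕ) : ℝ) ^ 2 * K')
        = Q * ((K' : ℝ) * 1 + K * ((m + 1 : ℕ) : ℝ) ^ 2 * K' * g) := by rw [h4]; ring
      _ ≤ Q * ((K' : ℝ) * g + K * ((m + 1 : ℕ) : ℝ) ^ 2 * K' * g) := by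
          refine mul_le_mul_of_nonneg_left ?_ hQ0.le
          have := mul_le_mul_of_nonneg_left hg1 (Nat.cast_nonneg (α := ℝ) K')
          linarith
      _ = Q * (K' + K * ((m + 1 : ℕ) : ℝ) ^ 2 * K') * g := by ring
      _ ≤ Q * (K' + K * ((m + 1 : ℕ) : ℝ) ^ 2 * K') * (3 / Real.log 2 * Real.log (|(t : ℝ)| + 2)) :=
          mul_le_mul_of_nonneg_left hlog (by positivity)
      _ = Q * (K' + K * ((m + 1 : ℕ) : ℝ) ^ 2 * K') * (3 / Real.log 2) * Real.log (|(t : ℝ)| + 2) := by ring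

end Pool.Agent.OB
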