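import Pool.Agent.helper38.OB.Spec

/-! Row PRE of the project OB (MP_d7d65f_nt): Chebyshev's inequality for the number of chosen sets. -/

set_option autoImplicit false

namespace Pool.Agent.OB

open Finset

noncomputable section

/-- the weight of `A` -/
def PRE_W (V : Finset ℕ) (w : ℕ → ℝ) (A : Finset ℕ) : ℝ := (∏ x ∈ A, w x) * ∏ x ∈ V \ A, (1 - w x)

open Classical in
theorem PRE_pr (V : Finset ℕ) (w : ℕ → ℝ) (P : Finset ℕ → Prop) :
    pr V w P = ∑ A ∈ V.powerset, PRE_W V w A * (if P A then 1 else 0) := by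
  unfold pr PRE_W
  rw [Finset.sum_filter]
  refine Finset.sum_congr rfl fun A _ => ?_
  by_cases h : P A
  · rw [if_pos h, if_pos h, mul_one]
  · rw [if_neg h, if_neg h, mul_zero]

open Classical in
theorem PRE_card {ι : Type} (F : Finset ι) (T : ι → Finset ℕ) (A : Finset ℕ) :
    ((inn F T A).card : ℝ) = ∑ i ∈ F, (if T i ⊆ A then (1 : ℝ) else 0) := by
  unfold inn
  rw [Finset.card_filter]
  push_cast
  rfl

open Classical in
theorem PRE (hPRA : PRA_stmt) : PRE_stmt := by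
  intro V w hw ι F T hT M D hM hm hD
  obtain ⟨p1, p2⟩ := hPRA V w hw
  set m : ℝ := ∑ i ∈ F, ∏ x ∈ T i, w x with hmdef
  have hm0 : 0 ≤ m := Finset.sum_nonneg fun i hi => Finset.prod_nonneg fun x hx => (hw x (hT i hi hx)).1
  have hW0 : ∀ A ∈ V.powerset, 0 ≤ PRE_W V w A := by
    intro A hA
    rw [Finset.mem_powerset] at hA
    refine mul_nonneg (Finset.prod_nonneg fun x hx => (hw x (hA hx)).1) (Finset.prod_nonneg fun x hx => ?_)
    have := (hw x (Finset.mem_sdiff.1 hx).1).2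
    linarith
  set X : Finset ℕ → ℝ := fun A => ((inn F T A).card : ℝ) with hX
  -- the moments
  have e0 : ∑ A ∈ V.powerset, PRE_W V w A = 1 := by
    rw [← p1, PRE_pr]
    refine Finset.sum_congr rfl fun A _ => ?_
    rw [if_pos trivial, mul_one]
  have e1 : ∑ A ∈ V.powerset, PRE_W V w A * X A = m := by
    have h1 : ∀ A ∈ V.powerset, PRE_W V w A * X A =
        ∑ i ∈ F, PRE_W V w A * (if T i ⊆ A then (1 : ℝ) else 0) := by
      intro A _
      rw [← Finset.mul_sum, ← PRE_card]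
    rw [Finset.sum_congr rfl h1, Finset.sum_comm, hmdef]
    refine Finset.sum_congr rfl fun i hi => ?_
    rw [← p2 (T i) (hT i hi), PRE_pr]
    refine Finset.sum_congr rfl fun A _ => ?_
    by_cases h : T i ⊆ A
    · rw [if_pos h, if_pos h]
    · rw [if_neg h, if_neg h]
  have e2 : ∑ A ∈ V.powerset, PRE_W V w A * X A ^ 2 = ∑ i ∈ F, ∑ k ∈ F, ∏ x ∈ T i ∪ T k, w x := by
    have h1 : ∀ A ∈ V.powerset, PRE_W V w A * X A ^ 2 =
        ∑ i ∈ F, ∑ k ∈ F, PRE_W V w A * (if T i ∪ T k ⊆ A then (1 : ℝ) else 0) := by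
      intro A _
      have h2 : X A ^ 2 = ∑ i ∈ F, ∑ k ∈ F, (if T i ∪ T k ⊆ A then (1 : ℝ) else 0) := by
        rw [hX, sq]
        simp only [PRE_card]
        rw [Finset.sum_mul_sum]
        refine Finset.sum_congr rfl fun i _ => Finset.sum_congr rfl fun k _ => ?_
        by_cases h3 : T i ⊆ A
        · by_cases h4 : T k ⊆ A
          · rw [if_pos h3, if_pos h4, if_pos (Finset.union_subset h3 h4), one_mul]
          · rw [if_neg h4, mul_zero, if_neg (fun h => h4 (Finset.union_subset_iff.1 h).2)]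
        · rw [if_neg h3, zero_mul, if_neg (fun h => h3 (Finset.union_subset_iff.1 h).1)]
      rw [h2, Finset.mul_sum]
      refine Finset.sum_congr rfl fun i _ => ?_
      rw [Finset.mul_sum]
    rw [Finset.sum_congr rfl h1, Finset.sum_comm]
    refine Finset.sum_congr rfl fun i hi => ?_
    rw [Finset.sum_comm]
    refine Finset.sum_congr rfl fun k hk => ?_
    rw [← p2 (T i ∪ T k) (Finset.union_subset (hT i hi) (hT k hk)), PRE_pr]
    refine Finset.sum_congr rfl fun A _ => ?_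
    by_cases h : T i ∪ T k ⊆ A
    · rw [if_pos h, if_pos h]
    · rw [if_neg h, if_neg h]
  have e3 : ∑ i ∈ F, ∑ k ∈ F, ∏ x ∈ T i ∪ T k, w x ≤ m ^ 2 + D := by
    have h1 : ∀ i ∈ F, ∀ k ∈ F, ∏ x ∈ T i ∪ T k, w x ≤
        (∏ x ∈ T i, w x) * (∏ x ∈ T k, w x) + (if Disjoint (T i) (T k) then 0 else ∏ x ∈ T i ∪ T k, w x) := by
      intro i hi k hk
      by_cases h : Disjoint (T i) (T k)
      · rw [if_pos h, add_zero, Finset.prod_union h]
      · rw [if_neg h]
        have : 0 ≤ (∏ x ∈ T i, w x) * (∏ x ∈ T k, w x) :=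
          mul_nonneg (Finset.prod_nonneg fun x hx => (hw x (hT i hi hx)).1)
            (Finset.prod_nonneg fun x hx => (hw x (hT k hk hx)).1)
        linarith
    calc ∑ i ∈ F, ∑ k ∈ F, ∏ x ∈ T i ∪ T k, w x
        ≤ ∑ i ∈ F, ∑ k ∈ F, ((∏ x ∈ T i, w x) * (∏ x ∈ T k, w x) +
            (if Disjoint (T i) (T k) then 0 else ∏ x ∈ T i ∪ T k, w x)) :=
          Finset.sum_le_sum fun i hi => Finset.sum_le_sum fun k hk => h1 i hi k hk
      _ = m ^ 2 + ∑ i ∈ F, ∑ k ∈ F, (if Disjoint (T i) (T k) then 0 else ∏ x ∈ T i ∪ T k, w x) := by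
          simp only [Finset.sum_add_distrib]
          rw [sq, hmdef, Finset.sum_mul_sum]
      _ ≤ m ^ 2 + D := by linarith
  -- Chebyshev
  rw [le_div_iff₀ (by positivity), PRE_pr, Finset.sum_mul]
  have h5 : ∀ A ∈ V.powerset, PRE_W V w A * (if 2 * M ≤ ((inn F T A).card : ℝ) then 1 else 0) * M ^ 2 ≤
      PRE_W V w A * (X A - m) ^ 2 := by
    intro A hA
    rw [mul_assoc]
    refine mul_le_mul_of_nonneg_left ?_ (hW0 A hA)
    by_cases h : 2 * M ≤ ((inn F T A).card : ℝ)
    · rw [if_pos h, one_mul]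
      have h6 : M ≤ X A - m := by
        have : X A = ((inn F T A).card : ℝ) := rfl
        rw [this]
        linarith
      exact pow_le_pow_left₀ hM.le h6 2
    · rw [if_neg h, zero_mul]
      exact sq_nonneg _
  refine (Finset.sum_le_sum h5).trans ?_
  have h6 : ∑ A ∈ V.powerset, PRE_W V w A * (X A - m) ^ 2 =
      ∑ A ∈ V.powerset, PRE_W V w A * X A ^ 2 - 2 * m * ∑ A ∈ V.powerset, PRE_W V w A * X A +
        m ^ 2 * ∑ A ∈ V.powerset, PRE_W V w A := by
    have h7 : ∀ A ∈ V.powerset, PRE_W V w A * (X A - m) ^ 2 =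
        PRE_W V w A * X A ^ 2 - 2 * m * (PRE_W V w A * X A) + m ^ 2 * PRE_W V w A := fun A _ => by ring
    rw [Finset.sum_congr rfl h7, Finset.sum_add_distrib, Finset.sum_sub_distrib, ← Finset.mul_sum,
      ← Finset.mul_sum]
  rw [h6, e0, e1, e2]
  nlinarith

end

end Pool.Agent.OB
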