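import Pool.Agent.helper38.OB.Spec

/-! Row UPA of the project OB (MP_d7d65f_nt): the counting property bounds the number of elements. -/

set_option autoImplicit false

namespace Pool.Agent.OB

open Finset

theorem UPA : UPA_stmt := by
  classical
  intro h hh A hA
  obtain ⟨K, hK⟩ := hA
  have he : Sg (fun _ : Fin h => (1 : ℤ)) := fun i => Or.inl rfl
  have hh0 : (h : ℝ) ≠ 0 := by
    have : h ≠ 0 := by omega
    exact_mod_cast this
  refine ⟨((K * h + 1 : ℕ) : ℝ) ^ ((1 : ℝ) / (h : ℝ)),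
    Real.rpow_pos_of_pos (Nat.cast_pos.2 (Nat.succ_pos _)) _, fun n hn => ?_⟩
  have hfin : (A ∩ Set.Icc 1 n).Finite := (Set.finite_Icc 1 n).subset Set.inter_subset_right
  set F : Finset ℕ := hfin.toFinset with hF
  have hFmem : ∀ x, x ∈ F ↔ x ∈ A ∧ 1 ≤ x ∧ x ≤ n := by
    intro x
    rw [hF, Set.Finite.mem_toFinset]
    exact Iff.rfl
  have hN : 1 ≤ h * n := Nat.mul_pos (by omega) (by omega)
  obtain ⟨h1, h2⟩ := hK _ he (h * n) hN
  have h3 : ((Fintype.piFinset (fun _ : Fin h => F) : Finset (Fin h → ℕ)) : Set (Fin h → ℕ)) ⊆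
      Tup A (fun _ : Fin h => (1 : ℤ)) (fun t => |t| ≤ ((h * n : ℕ) : ℤ)) := by
    intro x hx
    rw [Finset.mem_coe, Fintype.mem_piFinset] at hx
    refine ⟨fun i => ((hFmem _).1 (hx i)).1, fun i j hij => absurd rfl hij, ?_⟩
    have h4 : (∑ i : Fin h, (1 : ℤ) * (x i : ℤ)) = ((∑ i : Fin h, x i : ℕ) : ℤ) := by
      push_cast
      exact Finset.sum_congr rfl fun i _ => one_mul _
    have h5 : ∑ i : Fin h, x i ≤ h * n := by
      calc ∑ i : Fin h, x i ≤ ∑ _i : Fin h, n := Finset.sum_le_sum fun i _ => ((hFmem _).1 (hx i)).2.2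
        _ = h * n := by rw [Finset.sum_const, Finset.card_univ, Fintype.card_fin, smul_eq_mul]
    show |∑ i : Fin h, (1 : ℤ) * (x i : ℤ)| ≤ ((h * n : ℕ) : ℤ)
    rw [h4, Nat.abs_cast]
    exact_mod_cast h5
  have h4 := Set.ncard_le_ncard h3 h1
  rw [Set.ncard_coe_finset, Fintype.card_piFinset, Finset.prod_const, Finset.card_univ, Fintype.card_fin] at h4
  have h5 : F.card ^ h ≤ (K * h + 1) * n := by
    calc F.card ^ h ≤ K * (h * n) := h4.trans h2
      _ = K * h * n := by ring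
      _ ≤ (K * h + 1) * n := Nat.mul_le_mul_right n (by omega)
  have h6 : (A ∩ Set.Icc 1 n).ncard = F.card := by
    rw [hF, Set.ncard_eq_toFinset_card _ hfin]
  rw [h6]
  have h7 : ((F.card : ℝ) ^ h) ≤ ((K * h + 1 : ℕ) : ℝ) * (n : ℝ) := by exact_mod_cast h5
  have h8 : (F.card : ℝ) = ((F.card : ℝ) ^ h) ^ ((1 : ℝ) / (h : ℝ)) := by
    rw [one_div, Real.pow_rpow_inv_natCast (by positivity) (by omega)]
  have h9 : (0 : ℝ) ≤ ((F.card : ℝ) ^ h) := pow_nonneg (Nat.cast_nonneg _) h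
  have h10 : (0 : ℝ) ≤ (1 : ℝ) / (h : ℝ) := div_nonneg zero_le_one (Nat.cast_nonneg _)
  have h11 := Real.rpow_le_rpow h9 h7 h10
  rw [Real.mul_rpow (Nat.cast_nonneg _) (Nat.cast_nonneg _), ← h8] at h11
  exact h11

end Pool.Agent.OB
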